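import Pool.Agent.U624.KT.Stm

set_option autoImplicit false

/-! Project KT (helper624), package LAM (helper810): the linear form `lam`. -/

namespace Pool.Agent.U810.KT

open Pool.Agent.U624.KT

theorem lam_pos (x : K) (hx : TP x) : 0 < lam x := by
  obtain ⟨a, b, c, d, rfl⟩ := exists_mk x
  obtain ⟨u, hu⟩ : ∃ u : ℝ, u = Real.sqrt 2 := ⟨_, rfl⟩
  obtain ⟨w, hw⟩ : ∃ w : ℝ, w = Real.sqrt 5 := ⟨_, rfl⟩
  have hu2 : u ^ 2 = 2 := by rw [hu]; exact Real.sq_sqrt (by norm_num)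
  have hw2 : w ^ 2 = 5 := by rw [hw]; exact Real.sq_sqrt (by norm_num)
  have hu0 : 0 < u := by rw [hu]; exact Real.sqrt_pos.2 (by norm_num)
  have hw0 : 0 < w := by rw [hw]; exact Real.sqrt_pos.2 (by norm_num)
  have hu1 : 1 < u := by nlinarith
  have hw1 : 1 < w := by nlinarith
  have key : ∀ g : ℝ, g ^ 2 = g + 1 → 0 < ((a : ℝ) + c) + (b + d) * g := by
    intro g hg
    have h1 := hx (emb u g hu2 hg)
    have h2 := hx (emb (-u) g (by rw [neg_sq]; exact hu2) hg)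
    rw [emb_apply] at h1 h2
    simp only [c0_mk, c1_mk, c2_mk, c3_mk] at h1 h2
    have h3 : 0 < (1 + u) * ((a : ℝ) + b * g + c * u + d * (g * u)) := by positivity
    have h4 : 0 < (u - 1) * ((a : ℝ) + b * g + c * (-u) + d * (g * (-u))) :=
      mul_pos (by linarith) h2
    have h5 : (1 + u) * ((a : ℝ) + b * g + c * u + d * (g * u)) +
        (u - 1) * ((a : ℝ) + b * g + c * (-u) + d * (g * (-u))) =
        2 * u * (((a : ℝ) + c) + (b + d) * g) := by ring
    have h6 : 0 < 2 * u * (((a : ℝ) + c) + (b + d) * g) := by rw [← h5]; linarith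
    exact (pos_iff_pos_of_mul_pos h6).1 (by positivity)
  have h1 := key ((1 + w) / 2) (by nlinarith)
  have h2 := key ((1 - w) / 2) (by nlinarith)
  have h3 : 0 < (1 + w) / 2 * (((a : ℝ) + c) + (b + d) * ((1 + w) / 2)) :=
    mul_pos (by linarith) h1
  have h4 : 0 < (w - 1) / 2 * (((a : ℝ) + c) + (b + d) * ((1 - w) / 2)) :=
    mul_pos (by linarith) h2
  have h5 : (1 + w) / 2 * (((a : ℝ) + c) + (b + d) * ((1 + w) / 2)) +
      (w - 1) / 2 * (((a : ℝ) + c) + (b + d) * ((1 - w) / 2)) = w * ((a : ℝ) + b + c + d) := by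
    ring
  have h6 : 0 < w * ((a : ℝ) + b + c + d) := by rw [← h5]; linarith
  have h7 : 0 < (a : ℝ) + b + c + d := (pos_iff_pos_of_mul_pos h6).1 hw0
  change (0 : ℚ) < a + b + c + d
  exact_mod_cast h7

theorem t_LAM : S_LAM := by
  refine ⟨lam_pos, ?_, ?_⟩
  · rintro x ⟨a, b, c, d, rfl⟩
    refine ⟨a + b + c + d, ?_⟩
    change (a : ℚ) + b + c + d = _
    push_cast
    rfl
  · intro x hx
    obtain ⟨a, b, c, d, rfl⟩ := exists_mk x
    obtain ⟨n0, h0⟩ := hx 1 R.one_mem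
    obtain ⟨n1, h1⟩ := hx f f_mem
    obtain ⟨n2, h2⟩ := hx s s_mem
    obtain ⟨n3, h3⟩ := hx (f * s) (R.mul_mem f_mem s_mem)
    rw [mul_one] at h0
    rw [f, mk_mul] at h1
    rw [s, mk_mul] at h2
    rw [f, s, mk_mul, mk_mul] at h3
    change a + b + c + d = _ at h0
    simp only [lam, c0_mk, c1_mk, c2_mk, c3_mk] at h1 h2 h3
    have hd : d = ((n3 - n1 - (n2 - n0) : ℤ) : ℚ) := by
      push_cast
      linarith
    have hc : c = ((n2 - n0 - (n3 - n1 - (n2 - n0)) : ℤ) : ℚ) := by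
      push_cast
      linarith
    have hb : b = ((n1 - n0 - (n3 - n1 - (n2 - n0)) : ℤ) : ℚ) := by
      push_cast
      linarith
    have ha : a = ((n0 - (n1 - n0 - (n3 - n1 - (n2 - n0))) - (n2 - n0 - (n3 - n1 - (n2 - n0))) -
        (n3 - n1 - (n2 - n0)) : ℤ) : ℚ) := by
      push_cast
      linarith
    exact ⟨_, _, _, _, mk_ext ha hb hc hd⟩

end Pool.Agent.U810.KT
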